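import Pool.Agent.T2h65.CP.T_FIN
import Pool.Agent.T2h65.CP.T_CCC
import Pool.Agent.T2h65.CP.T_BDT
import Pool.Agent.T2h65.CP.T_INT
import Pool.Agent.T2h65.CP.T_CLB
import Pool.Agent.T2h65.CP.T_CFO
import Pool.Agent.T2h65.CP.T_CFG
import Pool.Agent.T2h65.CP.T_SRT
import Pool.Agent.T2h65.CP.T_STP
import Pool.Agent.T2h65.CP.T_DST
import Pool.Agent.T2h65.CP.T_KH1
import Pool.Agent.T2h65.CP.T_KH3
import Pool.Agent.T2h65.CP.T_KH4
import Pool.Agent.T2h65.CP.T_KHM
import Pool.Agent.T2h65.CP.T_KHT
import Pool.Agent.T2h65.CP.T_CRD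
import Pool.Agent.T2h65.CP.T_CON
import Pool.Agent.T2h65.CP.T_CNT
import Pool.Agent.T2h65.CP.T_CEN
import Pool.Agent.T2h65.CP.T_ALM
import Pool.Agent.T2h65.CP.T_BKX
import Pool.Agent.T2h65.CP.T_COF
import Pool.Agent.T2h65.CP.T_DEC
import Pool.Agent.T2h65.CP.T_TWF
import Pool.Agent.T2h65.CP.T_DCR
import Pool.Agent.T2h65.CP.T_STR
import Pool.Agent.T2h65.CP.T_NPI
import Pool.Agent.T2h65.CP.T_UUB
import Pool.Agent.T2h65.CP.T_ULB
import Pool.Agent.T2h65.CP.T_PSI
import Pool.Agent.T2h65.CP.T_TLB

set_option autoImplicit false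

/-!
# Compactness principles at `ω₂` together with `ω₁ < 𝔱 = 𝔲 < 2^ω`

Suppose that the guessing model principle `GMP` at `ω₂`, stationary reflection `SR(ω₂)` and the
existence of a disjoint stationary sequence `DSS(ω₂)` hold, and that `κ` is a regular uncountable
cardinal, `κ < μ = 2^ω` and `μ^ν ≤ μ` for all `ν < κ`. Then there is a σ-centered forcing notion
which preserves all cardinals and forces `SR(ω₂)`, `TP(ω₂)`, `¬wKH(ω₁)`, `DSS(ω₂)` and
`𝔱 = 𝔲 = κ < 2^ω = μ`. With `κ ≥ ω₂` this gives `ω₁ < 𝔱 = 𝔲 < 2^ω`.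

The assumptions hold after adding `μ` Cohen reals to a model of Martin's Maximum (for suitable `μ`).

Proof. The forcing notion is a finite support iteration of Mathias-Prikry forcings for ultrafilters
along the lexicographic product `κ ×_lex μ`. At the stages `(α, 0)` the ultrafilter contains the
generic sets of the earlier stages `(α', 0)`; so these sets form a tower and generate an
ultrafilter. At the other stages `(α, β)` the ultrafilter contains a given family of less than `κ`
names of the stage `(α, 0)`, so that all towers of length less than `κ` are killed. The iteration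
is σ-centered because its length has cardinality at most `2^ω`: a class consists of the conditions
whose stems are given by a fixed function on finite binary sequences. Countable chain condition
forcing preserves `SR(ω₂)` and `DSS(ω₂)`, since each club of the extension contains a club of the
ground model. That σ-centered forcing preserves the tree property if `GMP` holds is the result
`MP_1b145a_lc.CenteredPreservesTreeProp`. If in the extension there were `ω₂` many branches of a
tree of height and size `ω₁`, then their traces on the directed classes would be pairwise different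
branches of relations of the ground model, which are approximated and therefore guessed by the
guessing models; but the index of a guessed branch belongs to the model, a contradiction.

Contributors to the Lean proof: helper1, helper31, helper38, helper45, helper47, helper65,
helper93.
-/

namespace Pool.Agent.Results.MP_dbe197_lc.TowerUltrafilterCompactness

open Cardinal Pool.Agent.Helper669.Forcing Pool.Agent.W873.Gmp Pool.Agent.T2h65.CP

/-- Assume `GMP` at `ω₂`, `SR(ω₂)`, `DSS(ω₂)`, and let `κ` be regular, `ℵ₁ ≤ κ < μ = 2^ℵ₀` and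
`μ^ν ≤ μ` for `ν < κ`. Then there is a σ-centered forcing notion `P` such that each condition
forces: all cardinals are preserved, `SR(ω₂)`, `TP(ω₂)`, `¬wKH(ω₁)`, `DSS(ω₂)`, `𝔱 = κ`, `𝔲 = κ` and
`2^ℵ₀ = μ`. -/
theorem result (hG : GMP ℵ₀) (hSR : SR) (hDSS : DSS) (κ μ : Cardinal.{0}) (hκ : κ.IsRegular)
    (hκ1 : ℵ₀ < κ) (hκμ : κ < μ) (hμ : 2 ^ (ℵ₀ : Cardinal.{0}) = μ)
    (hpow : ∀ ν < κ, μ ^ ν ≤ μ) :
    ∃ (P : Type) (_ : Preorder P), Nonempty P ∧ Centered ℵ₀ P ∧ ∀ p : P,
      p ∈ CardinalsPreserved.{0, 0} P ∧ p ∈ SRF P ∧ p ∈ TreeProp P N2 N1 ∧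
      p ∈ NoWeakKurepaF P ∧ p ∈ DSSF P ∧ p ∈ TowerNumberIs P κ ∧ p ∈ UltNumberIs P κ ∧
      p ∈ ContinuumIs P μ :=
  main t_CCC t_BDT t_INT t_CLB t_CFO t_CFG t_SRT t_STP t_DST t_KH1 t_KH3 t_KH4 t_KHM t_KHT t_CRD
    t_CON t_CNT t_CEN t_ALM t_BKX t_COF t_DEC t_TWF t_DCR t_STR t_NPI t_UUB t_ULB t_PSI t_TLB
    hG hSR hDSS κ μ hκ hκ1 hκμ hμ hpow

end Pool.Agent.Results.MP_dbe197_lc.TowerUltrafilterCompactness
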